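import Pool.Agent.Lib.helper24.NonHopf

set_option autoImplicit false

namespace Pool.Agent.Results.MP_e7abc8_al.NotResFin
open Pool.Agent.FreeVar

/-- Some relatively free algebra of finite rank over a finite field has a nonzero element lying in
every two-sided ideal with finite quotient. -/
theorem result : ∃ (F : Type) (_ : Field F), Finite F ∧
    ∃ (S : Set (FreeNonUnitalNonAssocAlgebra F ℕ)) (n : ℕ), 1 ≤ n ∧
      ∃ (A : Type) (_ : NonUnitalNonAssocRing A) (_ : Module F A) (_ : IsScalarTower F A A)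
        (_ : SMulCommClass F A A) (x : Fin n → A), IsFree F S A x ∧
        ∃ d : A, d ≠ 0 ∧ ∀ I : Submodule F A, (∀ a b, b ∈ I → a * b ∈ I) →
          (∀ a b, a ∈ I → a * b ∈ I) → Finite (A ⧸ I) → d ∈ I :=
  ⟨ZMod 2, inferInstance, inferInstance, {NonHopf.idn}, 1, le_rfl, _, _, _, _, _, _,
    free_isFree (ZMod 2) {NonHopf.idn} (Fin 1), _,
    NonHopf.d_ne (free_isFree (ZMod 2) {NonHopf.idn} (Fin 1)),
    NonHopf.d_mem (free_isFree (ZMod 2) {NonHopf.idn} (Fin 1))⟩

end Pool.Agent.Results.MP_e7abc8_al.NotResFin
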